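import Pool.Agent.Q75.BM.Stm

/-!
First average of the logarithm of the bilinear form of a random word (project BM).
-/

set_option autoImplicit false

namespace Pool.Agent.Q103.BM

open Filter Topology MeasureTheory Set
open Pool.Agent.Q75.BM

/-- the vector `M e_β` -/
noncomputable def zz (M : SL) (β : ℝ) : Fin 2 → ℂ := fun i => ∑ j, M.1 i j * (ev β j : ℂ)

theorem zz_ne (M : SL) (β : ℝ) : zz M β ≠ 0 := by
  intro h
  have h1 : M.1.mulVec (fun j => (ev β j : ℂ)) = 0 := by
    funext i
    have := congrFun h i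
    simpa [zz, Matrix.mulVec, dotProduct] using this
  have hdet : M.1.det ≠ 0 := by rw [M.2]; exact one_ne_zero
  have h2 := Matrix.eq_zero_of_mulVec_eq_zero hdet h1
  have h3 := congrFun h2 0
  have h4 := congrFun h2 1
  simp only [ev, Matrix.cons_val_zero, Matrix.cons_val_one, Pi.zero_apply,
    Complex.ofReal_eq_zero] at h3 h4
  have h5 := Real.sin_sq_add_cos_sq β
  rw [h3, h4] at h5
  norm_num at h5

theorem bf_eq (M : SL) (α β : ℝ) : bf M α β = ∑ i, (ev α i : ℂ) * zz M β i := by
  unfold bf zz
  refine Finset.sum_congr rfl fun i _ => ?_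
  rw [Finset.mul_sum]
  refine Finset.sum_congr rfl fun j _ => ?_
  ring

theorem vn_eq (M : SL) (β : ℝ) : vn M β = Real.sqrt (∑ i, ‖zz M β i‖ ^ 2) := rfl

theorem cont_entry (hWM : S_WM) (w : List Ltr) (i j : Fin 2) :
    Continuous fun l : ℂ => (wmat w l).1 i j := by
  obtain ⟨P, -, hP⟩ := (hWM w).1 i j
  have : (fun l : ℂ => (wmat w l).1 i j) = fun l => P.eval l := funext hP
  rw [this]
  exact P.continuous

theorem cont_ev (i : Fin 2) : Continuous fun α : ℝ => (ev α i : ℂ) := by
  fin_cases i
  · exact Complex.continuous_ofReal.comp Real.continuous_cos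
  · exact Complex.continuous_ofReal.comp Real.continuous_sin

theorem t_P1 : S_LP → S_RO → S_AV1 → S_FB → S_WM → S_P1 := by
  intro hLP hRO hAV hFB hWM w β φ B hφ hB
  obtain ⟨hc, hcs, -⟩ := hLP φ hφ
  have hzc : ∀ i, Continuous fun l : ℂ => zz (wmat w l) β i := by
    intro i
    unfold zz
    exact continuous_finset_sum _ fun j _ => (cont_entry hWM w i j).mul continuous_const
  have hvpos : ∀ l : ℂ, 0 < vn (wmat w l) β := by
    intro l
    rw [vn_eq]
    refine Real.sqrt_pos.2 ?_
    obtain ⟨i, hi⟩ := Function.ne_iff.1 (zz_ne (wmat w l) β)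
    have h1 : 0 < ‖zz (wmat w l) β i‖ ^ 2 := by
      have : 0 < ‖zz (wmat w l) β i‖ := norm_pos_iff.2 hi
      positivity
    exact Finset.sum_pos' (fun j _ => by positivity) ⟨i, Finset.mem_univ _, h1⟩
  have hvc : Continuous fun l : ℂ => vn (wmat w l) β := by
    have : (fun l : ℂ => vn (wmat w l) β) =
        fun l => Real.sqrt (∑ i, ‖zz (wmat w l) β i‖ ^ 2) := rfl
    rw [this]
    exact Real.continuous_sqrt.comp
      (continuous_finset_sum _ fun i _ => ((hzc i).norm.pow 2))
  have hKc : Continuous fun l : ℂ => Real.log (vn (wmat w l) β) :=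
    hvc.log fun l => (hvpos l).ne'
  have hbc : Continuous fun p : ℝ × ℂ => bf (wmat w p.2) p.1 β := by
    have : (fun p : ℝ × ℂ => bf (wmat w p.2) p.1 β) =
        fun p => ∑ i, (ev p.1 i : ℂ) * zz (wmat w p.2) β i := funext fun p => bf_eq _ _ _
    rw [this]
    exact continuous_finset_sum _ fun i _ =>
      ((cont_ev i).comp continuous_fst).mul ((hzc i).comp continuous_snd)
  have key := hFB (fun α l => Real.log ‖bf (wmat w l) α β‖)
    (fun l => Real.log (vn (wmat w l) β)) (Lap φ) 1 (2 * Real.pi * B) zero_le_one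
    (Real.measurable_log.comp hbc.norm.measurable) hKc.measurable hKc.locallyIntegrable hc hcs
    (fun l => by
      have := (hAV _ (zz_ne (wmat w l) β)).1
      simpa only [bf_eq] using this)
    (fun l => by
      have h1 := (hAV _ (zz_ne (wmat w l) β)).2.2
      filter_upwards [h1.2] with α hα
      have h2 := h1.1 α hα
      rw [bf_eq, vn_eq]
      exact h2)
    (fun l => by
      have := (hAV _ (zz_ne (wmat w l) β)).2.1
      simp only [bf_eq, vn_eq]
      exact this)
    (by
      have h1 := (hAV _ (zz_ne (wmat w 0) β)).2.2.2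
      filter_upwards [h1] with α hα
      obtain ⟨P, -, hP⟩ := (hWM w).2.2 α β
      have hP0 : P ≠ 0 := by
        rintro rfl
        apply hα
        have := hP 0
        rw [bf_eq, Polynomial.eval_zero] at this
        exact this
      have h2 := hB α P hP0 hP
      have h3 := (hRO P hP0).2 φ hφ
      have h4 : ∫ l, Real.log ‖bf (wmat w l) α β‖ * Lap φ l =
          2 * Real.pi * (P.roots.map φ).sum := by
        rw [← h3]
        refine integral_congr_ae (Eventually.of_forall fun l => ?_)
        simp only [hP l]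
      rw [h4]
      exact mul_le_mul_of_nonneg_left h2 (by positivity))
  rw [one_mul] at key
  exact key

end Pool.Agent.Q103.BM
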